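import Pool.Agent.Helper63.XP.StA

/-! Project XP (MP_c973ff_an), module BAX: the last layer. -/

set_option autoImplicit false

namespace Pool.Agent.Helper99.XP

open Pool.Agent.Helper63.XP
open Pool.Agent.Helper63.XR (gen blk wt)
open Finset

theorem bax_np_nonneg {J : Type} [Fintype J] (p : ℝ) (f : J → ℂ) : 0 ≤ np p f :=
  sum_nonneg fun _ _ => Real.rpow_nonneg (norm_nonneg _) _

theorem bax_mem {P : Type} [Fintype P] [DecidableEq P] {k b : ℕ} {d m J Q : ℕ → ℕ} {B : ℕ → ℝ} {S : Type}
    [Fintype S] [DecidableEq S] {g : LP P k b d m J Q B} {t : S → ℝ} {l : ℕ} {j : S × P} (hj : j ∈ Al g t l) :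
    t j.1 = 1 ∧ g.lev j.2 = l := by
  unfold Al at hj
  exact (mem_filter.1 hj).2

theorem hBAX : StBax := by
  intro P _ _ k b d m J Q B g S _ _ t p lam E δ ε κ z β hp _ hδ hκ hβ hd hflat
  have hpc : ∀ (j : S × P) (f : S × P → ℂ), pc (fun i => if k = k ∧ i = j then (1 : ℂ) else 0) f = f j := by
    intro j f
    unfold pc
    rw [sum_eq_single j]
    · simp
    · intro i _ hi
      simp [hi]
    · intro h
      exact absurd (mem_univ _) h
  refine ⟨∅, fun q j i => if q = k ∧ i = j then 1 else 0, empty_subset _, ?_, ?_, ?_, ?_, ?_, ?_⟩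
  · intro j _ q i
    refine ⟨?_, ?_⟩
    · show ‖(if q = k ∧ i = j then (1 : ℂ) else 0)‖ ≤ (∏ a ∈ Ico k q, (d a : ℝ)) ^ (1 / p - 1)
      by_cases hq : q = k ∧ i = j
      · obtain ⟨rfl, rfl⟩ := hq
        simp
      · rw [if_neg hq, norm_zero]
        exact Real.rpow_nonneg (prod_nonneg fun _ _ => Nat.cast_nonneg _) _
    · intro h
      by_cases hq : q = k ∧ i = j
      · obtain ⟨rfl, rfl⟩ := hq
        refine ⟨le_rfl, le_rfl, rfl, ?_⟩
        rw [Nat.sub_self]
        exact mem_singleton_self _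
      · exact absurd (if_neg hq) h
  · intro j _ i
    show (if k = k ∧ i = j then (1 : ℂ) else 0) = if i = j then 1 else 0
    simp
  · intro j _ _ q h1 h2
    omega
  · intro j hj _ q h1 h2 f hf
    have hq : q = k := by omega
    subst hq
    rw [show pc ((fun q' j i => if q' = q ∧ i = j then (1 : ℂ) else 0) q j) f = f j from hpc j f]
    refine (hflat f hf j (bax_mem hj).2).trans ?_
    exact mul_le_mul_of_nonneg_right hδ (Real.rpow_nonneg (bax_np_nonneg p f) _)
  · intro f _ hf1 q h1 h2
    have hq : q = k := by omega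
    subst hq
    refine ⟨f, fun _ => 0, ?_, ?_, ?_⟩
    · intro j _
      rw [add_zero]
      exact hpc j f
    · refine le_trans ?_ (hf1.trans hκ)
      exact sum_le_sum_of_subset_of_nonneg (subset_univ _) fun _ _ _ => Real.rpow_nonneg (norm_nonneg _) _
    · simp only [norm_zero]
      have : ∑ j ∈ Al g t q, (0 : ℝ) ^ 2 = 0 := sum_eq_zero fun _ _ => by norm_num
      rw [this]
      positivity
  · rw [card_empty, Nat.cast_zero]
    positivity

end Pool.Agent.Helper99.XP
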